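import Pool.Agent.Results.MP_3efbeb_nt.ChenTuples
import Pool.Agent.KS6_51.AP2

/-!
# Narrow progressions of Chen tuples, in arbitrary dense subsets

Let `H` be an admissible finite set of shifts (for instance `{0, 2, 6}` or `{0, 2, 6, 8}`), `i ≠ j` two arbitrary members of
`H`, and `G` the set of the integers `n` in `(X, 2 X]` such that

* `n + i` is a PRIME,
* `n + j` is a prime or the product of TWO primes, both at least `X ^ (1 / 9)`,
* all the `n + h`, `h ∈ H`, have at most `r` prime factors, all of them at least `X ^ (1 / r)`,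
* all the other numbers `n + t`, `t ≤ L`, `t ∉ H`, have a prime factor `≤ r` (the pattern is exact).

By the theorem `ChenTuples` of this folder `G` has at least `c X / (log X) ^ |H|` elements. Here:

* the number of the `k`-term progressions in `G` with differences at most `D`, `log ^ B X ≤ D ≤ X`, has the order of magnitude
  `X D / (log X) ^ (|H| k)`, which is expected for tuples of primes;
* the same lower bound holds for EVERY subset of `G` with at least `η |G|` elements;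
* all the elements of every subset `S` of `G`, with at most `η |G|` exceptions, are terms of progressions of `k` elements of
  `S` with differences at most `log ^ B X`.

Proof. The lower bound for `|G|` (Chen's theorem for tuples) and the theorem of the starting files on narrow progressions in
dense subsets of sifted sets (`Pool.Agent.Y843.AC`, `Pool.Agent.Y843.HG`), the transference principle.
-/

set_option autoImplicit false

namespace Pool.Agent.Results.MP_3efbeb_nt.ChenTupleProgressions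

open Finset Filter Pool.Agent.KS6_51
open Pool.Agent.Y843.AC (APs)
open Pool.Agent.Y843.HG (InAP Iso V1)

/-- No prime divides one of the numbers `n + h`, `h ∈ H`, for every `n`. -/
def Admissible (H : Finset ℕ) : Prop := ∀ p : ℕ, p.Prime → ∃ a : ℕ, ∀ h ∈ H, ¬ p ∣ a + h

/-- `k` is the product of at most `s` primes, all of them at least `y`. -/
def Almost (s : ℕ) (y : ℝ) (k : ℕ) : Prop :=
  k.primeFactorsList.length ≤ s ∧ ∀ p : ℕ, p.Prime → p ∣ k → y ≤ p

/-- The integers `n` in `(X, 2 X]` for which `n + i` is a prime, `n + j` is the product of at most two primes, both at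
least `X ^ (1 / 9)`, every `n + h`, `h ∈ H`, is the product of at most `r` primes, all at least `X ^ (1 / r)`, and
every other `n + t`, `t ≤ L`, has a prime factor `≤ r`. -/
def G (H : Finset ℕ) (i j L r X : ℕ) : Set ℕ :=
  {n : ℕ | (X < n ∧ n ≤ 2 * X) ∧ (n + i).Prime ∧ Almost 2 ((X : ℝ) ^ (1 / 9 : ℝ)) (n + j) ∧
    (∀ h ∈ H, Almost r ((X : ℝ) ^ (1 / (r : ℝ))) (n + h)) ∧
    ∀ t : ℕ, t ≤ L → t ∉ H → ∃ p : ℕ, p.Prime ∧ p ≤ r ∧ p ∣ n + t}

/-- The number of the pairs `(a, d)` with `1 ≤ d ≤ D` such that `a, a + d, ..., a + (k - 1) d` are in `S`. -/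
noncomputable def AP (k D : ℕ) (S : Set ℕ) : ℕ :=
  {x : ℕ × ℕ | (1 ≤ x.2 ∧ x.2 ≤ D) ∧ ∀ j < k, x.1 + j * x.2 ∈ S}.ncard

/-- `q` is a term of a progression of `k` elements of `S` with a difference in `[1, D]`. -/
def OnAP (k : ℕ) (D : ℝ) (S : Set ℕ) (q : ℕ) : Prop :=
  ∃ a d : ℕ, 1 ≤ d ∧ (d : ℝ) ≤ D ∧ (∀ j < k, a + j * d ∈ S) ∧ ∃ j < k, q = a + j * d

theorem AP_eq {k : ℕ} (hk : 1 ≤ k) (D : ℕ) (S : Finset ℕ) : AP k D (S : Set ℕ) = (APs k D S).card := by
  classical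
  unfold AP APs
  rw [← Set.ncard_coe_finset]
  congr 1
  ext x
  simp only [Set.mem_ofPred_eq, mem_coe, mem_filter, mem_product, mem_Icc]
  constructor
  · rintro ⟨h1, h2⟩
    have h3 := h2 0 (by omega)
    rw [zero_mul, add_zero] at h3
    exact ⟨⟨h3, h1⟩, h2⟩
  · rintro ⟨⟨-, h1⟩, h2⟩
    exact ⟨h1, h2⟩

theorem Iso_eq (k : ℕ) (D : ℝ) (S : Finset ℕ) :
    {q : ℕ | q ∈ (S : Set ℕ) ∧ ¬ OnAP k D (S : Set ℕ) q}.ncard = (Iso k D S).card := by
  classical
  unfold Iso
  rw [← Set.ncard_coe_finset]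
  congr 1
  ext x
  simp only [Set.mem_ofPred_eq, mem_coe, mem_filter]
  rfl

theorem cl {H : Finset ℕ} (hH : Admissible H) (hne : H.Nonempty) : AP.Cl 0 H.card (CH.zer H) := by
  classical
  refine ⟨fun p hp => ⟨?_, ?_⟩, fun p hp _ => ⟨?_, CH.card_zer H hp.pos⟩⟩
  · obtain ⟨a, ha⟩ := hH p hp
    have h1 : a % p ∉ CH.zer H p := by
      rw [CH.mod_mem_zer hp.pos]
      rintro ⟨h, hh, hd⟩
      exact ha h hh hd
    have h2 : CH.zer H p ⊂ range p := by
      rw [ssubset_iff_of_subset]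
      · exact ⟨a % p, mem_range.2 (Nat.mod_lt _ hp.pos), h1⟩
      · intro c hc
        exact mem_range.2 (CH.mem_zer.1 hc).1
    have h3 := card_lt_card h2
    rwa [card_range] at h3
  · intro c hc
    exact (CH.mem_zer.1 hc).1
  · obtain ⟨h, hh⟩ := hne
    apply card_pos.2
    refine ⟨((p - 1) * h) % p, ?_⟩
    rw [CH.mod_mem_zer hp.pos]
    refine ⟨h, hh, ?_⟩
    obtain ⟨t, rfl⟩ : ∃ t, p = t + 1 := ⟨p - 1, by have := hp.pos; omega⟩
    rw [Nat.add_sub_cancel]
    exact ⟨h, by ring⟩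

/-- the number of the classes for the large primes -/
theorem card_zer_eq {H : Finset ℕ} {p : ℕ} (hp : p.Prime) (hHp : H.sup id < p) :
    (CH.zer H p).card = H.card := by
  classical
  have e : CH.zer H p = H.image (fun h => (p - h) % p) := by
    ext c
    rw [CH.mem_zer, mem_image]
    constructor
    · rintro ⟨h1, h, hh, hd⟩
      have hle : h ≤ H.sup id := le_sup (f := id) hh
      refine ⟨h, hh, ?_⟩
      have h2 : (p - h) % p + h ≡ c + h [MOD p] := by
        have h3 : (p - h) % p + h ≡ p - h + h [MOD p] := (Nat.mod_modEq _ _).add_right h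
        rw [Nat.sub_add_cancel (by omega)] at h3
        exact h3.trans (((Nat.modEq_zero_iff_dvd).2 dvd_rfl).trans ((Nat.modEq_zero_iff_dvd).2 hd).symm)
      exact Nat.ModEq.eq_of_lt_of_lt (Nat.ModEq.add_right_cancel' h h2) (Nat.mod_lt _ hp.pos) h1
    · rintro ⟨h, hh, rfl⟩
      have hle : h ≤ H.sup id := le_sup (f := id) hh
      refine ⟨Nat.mod_lt _ hp.pos, h, hh, ?_⟩
      rw [Nat.dvd_iff_mod_eq_zero, Nat.mod_add_mod, Nat.sub_add_cancel (by omega), Nat.mod_self]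
  rw [e]
  apply card_image_of_injOn
  intro a ha b hb hab
  have h1 : a ≤ H.sup id := le_sup (f := id) (mem_coe.1 ha)
  have h2 : b ≤ H.sup id := le_sup (f := id) (mem_coe.1 hb)
  have h3 : p - a ≡ p - b [MOD p] := hab
  have h4 : p - a + (a + b) ≡ p - b + (a + b) [MOD p] := h3.add_right _
  have e1 : p - a + (a + b) = p + b := by omega
  have e2 : p - b + (a + b) = p + a := by omega
  rw [e1, e2] at h4
  have h5 : b ≡ a [MOD p] := Nat.ModEq.add_left_cancel' p h4
  exact (Nat.ModEq.eq_of_lt_of_lt h5 (by omega) (by omega)).symm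

/-- the density -/
theorem dn_bounds {H : Finset ℕ} (hH : Admissible H) (hne : H.Nonempty) : ∃ c C : ℝ, 0 < c ∧ 0 < C ∧
    ∃ X₀ : ℕ, ∀ X : ℕ, X₀ ≤ X →
    c / Real.log X ^ H.card ≤ AP.dn 0 X (CH.zer H) ∧ AP.dn 0 X (CH.zer H) ≤ C / Real.log X ^ H.card := by
  classical
  have hcl := cl hH hne
  obtain ⟨z, hz⟩ : ∃ z, z = max (H.sup id) (2 * H.card + 2) := ⟨_, rfl⟩
  have hz1 : H.sup id ≤ z := by rw [hz]; exact le_max_left _ _
  have hz2 : 2 * H.card + 2 ≤ z := by rw [hz]; exact le_max_right _ _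
  obtain ⟨k, hk⟩ : ∃ k, H.card = k + 1 := ⟨H.card - 1, by have := hne.card_pos; omega⟩
  obtain ⟨c1, C1, hc1, hC1, hV⟩ := Pool.Agent.Y843.HG.V1_bounds
  have hWz : 0 < AP.WW 0 z (CH.zer H) := AP.WW_pos hcl z
  have hWz1 : AP.WW 0 z (CH.zer H) ≤ 1 := AP.WW_le_one hcl z
  have hVz : 0 < V1 z := Pool.Agent.Y843.HG.V1_pos z
  -- the product over the large primes
  have hlow : ∃ c2 : ℝ, 0 < c2 ∧ ∀ X : ℕ, 3 ≤ X → c2 / Real.log X ^ k ≤ AP.WW z X (CH.zer H) := by
    rcases Nat.eq_zero_or_pos k with hk0 | hk0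
    · refine ⟨1, one_pos, fun X _ => ?_⟩
      rw [hk0, pow_zero, div_one]
      unfold AP.WW
      rw [prod_eq_one]
      intro p hp
      rw [mem_filter, mem_Ioc] at hp
      rw [card_zer_eq hp.2 (by omega), hk, hk0]
      norm_num
    · obtain ⟨c2, hc2, h2⟩ := CH.prod_ge k hk0
      refine ⟨c2, hc2, fun X hX => ?_⟩
      have h3 := h2 z X (by omega) hX 2 (fun p => (((CH.zer H p).card : ℝ) - 1) / ((p : ℝ) - 1)) (by
        intro p hp hzp
        have h4 : (0 : ℝ) < (p : ℝ) - 1 := by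
          have : (1 : ℝ) < p := by exact_mod_cast hp.one_lt
          linarith
        rw [card_zer_eq hp (by omega), hk]
        push_cast
        refine ⟨?_, ?_⟩
        · rw [add_sub_cancel_right]
          positivity
        · rw [add_sub_cancel_right])
      have e : Pool.Agent.Y660.RP.P1 X z 2 = (Ioc z X).filter Nat.Prime := by
        ext p
        rw [Pool.Agent.Y660.RP.mem_P1, mem_filter, mem_Ioc]
        constructor
        · exact fun h => ⟨h.1, h.2.1⟩
        · intro h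
          refine ⟨h.1, h.2, ?_⟩
          rw [Real.rpow_two]
          have h3 : (p : ℝ) ≤ X := by exact_mod_cast h.1.2
          have h4 : (3 : ℝ) ≤ X := by exact_mod_cast hX
          nlinarith
      rw [e] at h3
      exact h3
  obtain ⟨c2, hc2, hlow⟩ := hlow
  have hup : ∀ X : ℕ, max z 2 ≤ X → AP.WW z X (CH.zer H) ≤ (C1 / V1 z / Real.log X) ^ k := by
    intro X hX
    rw [max_le_iff] at hX
    have h1 : ∏ p ∈ (Ioc z X).filter Nat.Prime, (1 - 1 / (p : ℝ)) ≤ C1 / V1 z / Real.log X := by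
      have h2 := AP.V1_split hX.1
      have h3 := (hV X hX.2).2
      rw [div_right_comm, le_div_iff₀ hVz, mul_comm, h2]
      exact h3
    refine le_trans ?_ (pow_le_pow_left₀ (prod_nonneg fun p hp => ?_) h1 k)
    · rw [← prod_pow]
      unfold AP.WW
      apply Finset.prod_le_prod
      · intro p hp
        rw [mem_filter, mem_Ioc] at hp
        exact (AP.fac_bd hp.2 (hcl.2 p hp.2 (by have := hp.2.pos; omega)).1 (hcl.1 p hp.2).1).1.le
      · intro p hp
        rw [mem_filter, mem_Ioc] at hp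
        rw [card_zer_eq hp.2 (by omega), hk]
        push_cast
        have h4 : (1 : ℝ) < p := by exact_mod_cast hp.2.one_lt
        have h2p : (2 : ℝ) ≤ p := by exact_mod_cast hp.2.two_le
        have h5 : (0 : ℝ) < (p : ℝ) - 1 := by linarith
        have h6 := one_add_mul_le_pow (a := -(1 / ((p : ℝ) - 1))) (by
          have : 1 / ((p : ℝ) - 1) ≤ 2 := by
            rw [div_le_iff₀ h5]
            linarith
          linarith) k
        have h7 : 1 - ((k : ℝ) + 1 - 1) / ((p : ℝ) - 1) = 1 + (k : ℝ) * -(1 / ((p : ℝ) - 1)) := by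
          ring
        rw [h7]
        refine h6.trans ?_
        apply pow_le_pow_left₀
        · have : 1 / ((p : ℝ) - 1) ≤ 1 := by
            rw [div_le_one h5]
            linarith
          linarith
        · have : 1 / (p : ℝ) ≤ 1 / ((p : ℝ) - 1) := one_div_le_one_div_of_le h5 (by linarith)
          linarith
    · rw [mem_filter] at hp
      have h4 : (1 : ℝ) < p := by exact_mod_cast hp.2.one_lt
      rw [sub_nonneg, div_le_one (by linarith)]
      exact h4.le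
  refine ⟨AP.WW 0 z (CH.zer H) * c2, (C1 / V1 z) ^ k, by positivity, by positivity, max z 3, ?_⟩
  intro X hX
  rw [max_le_iff] at hX
  have hlog : 0 < Real.log X := Real.log_pos (by exact_mod_cast (by omega : 1 < X))
  have hsp := AP.WW_split (CH.zer H) (Nat.zero_le z) hX.1
  have h1 := hlow X hX.2
  have h2 := hup X (by rw [max_le_iff]; exact ⟨hX.1, by omega⟩)
  have hW0 : 0 ≤ AP.WW z X (CH.zer H) := le_trans (by positivity) h1
  unfold AP.dn
  rw [← hsp, hk]
  constructor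
  · rw [pow_succ, ← div_div]
    apply div_le_div_of_nonneg_right _ hlog.le
    rw [mul_div_assoc]
    exact mul_le_mul_of_nonneg_left h1 hWz.le
  · rw [pow_succ, ← div_div]
    apply div_le_div_of_nonneg_right _ hlog.le
    rw [← div_pow]
    calc AP.WW 0 z (CH.zer H) * AP.WW z X (CH.zer H) ≤ 1 * AP.WW z X (CH.zer H) :=
          mul_le_mul_of_nonneg_right hWz1 hW0
      _ = AP.WW z X (CH.zer H) := one_mul _
      _ ≤ _ := h2

theorem finG (H : Finset ℕ) (i j L r X : ℕ) : (G H i j L r X).Finite :=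
  (Set.finite_Iic (2 * X)).subset fun _ hn => hn.1.2

/-- the elements of `G` avoid the classes -/
theorem avd {r : ℕ} (hr : 2 ≤ r) : ∃ X₀ : ℕ, 1 ≤ X₀ ∧
    ∀ X : ℕ, X₀ ≤ X → ∀ (H : Finset ℕ) (i j L : ℕ) (S : Finset ℕ), (S : Set ℕ) ⊆ G H i j L r X →
    S ⊆ Icc X (X + X) ∧ AP.Avd (1 / (2 * (r : ℝ))) X (CH.zer H) S := by
  have hr0 : (0 : ℝ) < r := by exact_mod_cast (by omega : 0 < r)
  obtain ⟨κ, hκd⟩ : ∃ κ : ℝ, κ = 1 / (2 * (r : ℝ)) := ⟨_, rfl⟩
  have hκ : 0 < κ := by rw [hκd]; positivity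
  have hκ2 : 2 * κ = 1 / (r : ℝ) := by rw [hκd]; field_simp
  have hκ1 : κ ≤ 1 := by
    rw [hκd, div_le_one (by positivity)]
    have : (2 : ℝ) ≤ r := by exact_mod_cast hr
    linarith
  have ht : Tendsto (fun X : ℕ => ((X : ℝ)) ^ κ) atTop atTop :=
    (tendsto_rpow_atTop hκ).comp tendsto_natCast_atTop_atTop
  obtain ⟨X₁, hX₁⟩ := (eventually_atTop.1 (ht.eventually_ge_atTop 3))
  refine ⟨max X₁ 2, by omega, ?_⟩
  intro X hX H i j L S hS
  rw [max_le_iff] at hX
  have h3 := hX₁ X hX.1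
  have hX2 : (2 : ℝ) ≤ X := by exact_mod_cast hX.2
  have hX0 : (0 : ℝ) < X := by linarith
  have hlt : ((X + 1 : ℕ) : ℝ) ^ κ < (X : ℝ) ^ (2 * κ) := by
    have h4 : ((X + 1 : ℕ) : ℝ) ^ κ ≤ 2 * (X : ℝ) ^ κ := by
      calc ((X + 1 : ℕ) : ℝ) ^ κ ≤ (2 * X) ^ κ := by
            apply Real.rpow_le_rpow (by positivity) _ hκ.le
            push_cast
            linarith
        _ = 2 ^ κ * (X : ℝ) ^ κ := Real.mul_rpow (by norm_num) hX0.le
        _ ≤ 2 * (X : ℝ) ^ κ := by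
            apply mul_le_mul_of_nonneg_right _ (by positivity)
            calc (2 : ℝ) ^ κ ≤ 2 ^ (1 : ℝ) :=
                  Real.rpow_le_rpow_of_exponent_le (by norm_num) hκ1
              _ = 2 := Real.rpow_one _
    have h5 : (X : ℝ) ^ (2 * κ) = (X : ℝ) ^ κ * (X : ℝ) ^ κ := by
      rw [← Real.rpow_add hX0]; ring_nf
    rw [h5]
    nlinarith
  refine ⟨?_, ?_⟩
  · intro n hn
    have h4 := (hS (mem_coe.2 hn)).1
    rw [mem_Icc]
    omega
  · intro n hn p hp hpX hmem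
    rw [← hκd] at hpX
    obtain ⟨-, -, -, hal, -⟩ := hS (mem_coe.2 hn)
    obtain ⟨h, hh, hd⟩ := (CH.mod_mem_zer hp.pos).1 hmem
    have h4 := (hal h hh).2 p hp hd
    rw [← hκ2] at h4
    linarith

/-- the theorem, with the lower bound for the number of the elements of `G` -/
theorem main : ∀ H : Finset ℕ, Admissible H → ∀ i ∈ H, ∀ j ∈ H, i ≠ j → ∀ L : ℕ,
    ∃ r : ℕ, 2 ≤ r ∧ ∃ c₁ : ℝ, 0 < c₁ ∧ ∀ k : ℕ, 3 ≤ k → ∃ c₂ : ℝ, 0 < c₂ ∧ ∀ η : ℝ, 0 < η →
    ∃ c₃ : ℝ, 0 < c₃ ∧ ∃ B X₀ : ℕ, ∀ X : ℕ, X₀ ≤ X →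
    c₁ * (X / Real.log X ^ H.card) ≤ (G H i j L r X).ncard ∧
    (∀ D : ℕ, Real.log X ^ B ≤ D →
      (AP k D (G H i j L r X) : ℝ) ≤ c₂ * (X * D / Real.log X ^ (H.card * k))) ∧
    ∀ S : Set ℕ, S ⊆ G H i j L r X →
      ({n : ℕ | n ∈ S ∧ ¬ OnAP k (Real.log X ^ B) S n}.ncard : ℝ) ≤ η * (G H i j L r X).ncard ∧
      (η * (G H i j L r X).ncard ≤ S.ncard → ∀ D : ℕ, Real.log X ^ B ≤ D → D ≤ X →
        c₃ * (X * D / Real.log X ^ (H.card * k)) ≤ AP k D S) := by
  classical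
  intro H hH i hi j hj hij L
  have hne : H.Nonempty := ⟨i, hi⟩
  obtain ⟨r, hr, c, hc, X₀, h⟩ := (ChenTuples.result.2.2) H hH i hi j hj hij 0 L
  have hr0 : (0 : ℝ) < r := by exact_mod_cast (by omega : 0 < r)
  refine ⟨r, hr, c, hc, fun k hk3 => ?_⟩
  have hk : 1 ≤ k := by omega
  obtain ⟨X₁, hX₁, hav⟩ := avd hr
  have hcl := cl hH hne
  obtain ⟨d1, d2, hd1, hd2, X₂, hdn⟩ := dn_bounds hH hne
  have hκ : (0 : ℝ) < 1 / (2 * (r : ℝ)) := by positivity
  have hκ1 : 1 / (2 * (r : ℝ)) ≤ 1 := by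
    rw [div_le_one (by positivity)]
    have : (2 : ℝ) ≤ r := by exact_mod_cast hr
    linarith
  obtain ⟨c₂, hc₂, B₂, X₃, hup⟩ := AP.upper 0 H.card k hk _ hκ hκ1
  refine ⟨c₂ * d2 ^ k, by positivity, fun η hη => ?_⟩
  obtain ⟨c₃, hc₃, B₃, X₄, hlo⟩ := AP.lower 0 H.card k hk _ hκ hκ1 (η * c / d2) (by positivity)
  obtain ⟨B₄, X₅, hiso⟩ := AP.isol 0 H.card k hk _ hκ hκ1 (η * c / d2) (by positivity)
  refine ⟨c₃ * d1 ^ k, by positivity, max B₂ (max B₃ B₄),
    max (max X₀ X₁) (max (max X₂ X₃) (max (max X₄ X₅) 3)), ?_⟩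
  intro X hX
  simp only [max_le_iff] at hX
  obtain ⟨⟨hX0, hX1⟩, ⟨hX2, hX3⟩, ⟨hX4, hX5⟩, hX6⟩ := hX
  obtain ⟨hdl, hdu⟩ := hdn X hX2
  have hlog : 1 ≤ Real.log X := by
    have h3 : (3 : ℝ) ≤ X := by exact_mod_cast hX6
    rw [Real.le_log_iff_exp_le (by linarith)]
    have := Real.exp_one_lt_d9
    linarith
  have hlog0 : 0 < Real.log X := by linarith
  have hdn0 : 0 ≤ AP.dn 0 X (CH.zer H) := le_trans (by positivity) hdl
  have hB : ∀ b : ℕ, b ≤ max B₂ (max B₃ B₄) → Real.log X ^ b ≤ Real.log X ^ (max B₂ (max B₃ B₄)) :=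
    fun b hb => pow_le_pow_right₀ hlog hb
  -- the lower bound for the number of elements
  have h1 : c * (X / Real.log X ^ H.card) ≤ (G H i j L r X).ncard := by
    have h2 := h X hX0 (fun _ => ∅) (by simp)
    rw [add_zero] at h2
    refine h2.trans ?_
    have h3 : {n : ℕ | (X < n ∧ n ≤ 2 * X) ∧ (n + i).Prime ∧
        ChenTuples.Almost 2 ((X : ℝ) ^ (1 / 9 : ℝ)) (n + j) ∧
        (∀ h ∈ H, ChenTuples.Almost r ((X : ℝ) ^ (1 / (r : ℝ))) (n + h)) ∧
        (∀ t : ℕ, t ≤ L → t ∉ H → ∃ p : ℕ, p.Prime ∧ p ≤ r ∧ p ∣ n + t) ∧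
        ∀ p : ℕ, p.Prime → r < p → (p : ℝ) < (X : ℝ) ^ (1 / (r : ℝ)) → n % p ∉ (∅ : Finset ℕ)} ⊆
        G H i j L r X := by
      rintro n ⟨g1, g2, g3, g4, g5, -⟩
      exact ⟨g1, g2, g3, g4, g5⟩
    exact_mod_cast Set.ncard_le_ncard h3 (finG H i j L r X)
  have h1' : X * AP.dn 0 X (CH.zer H) ≤ d2 / c * (G H i j L r X).ncard := by
    calc X * AP.dn 0 X (CH.zer H) ≤ X * (d2 / Real.log X ^ H.card) :=
          mul_le_mul_of_nonneg_left hdu (Nat.cast_nonneg X)
      _ = d2 / c * (c * (X / Real.log X ^ H.card)) := by field_simp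
      _ ≤ _ := mul_le_mul_of_nonneg_left h1 (by positivity)
  have hηc : η * c / d2 * (X * AP.dn 0 X (CH.zer H)) ≤ η * (G H i j L r X).ncard := by
    calc η * c / d2 * (X * AP.dn 0 X (CH.zer H)) ≤
        η * c / d2 * (d2 / c * (G H i j L r X).ncard) := mul_le_mul_of_nonneg_left h1' (by positivity)
      _ = _ := by field_simp
  -- subsets of `G` as finite sets
  have hfin : ∀ S : Set ℕ, S ⊆ G H i j L r X → ∃ T : Finset ℕ, (T : Set ℕ) = S := by
    intro S hS
    exact ⟨((finG H i j L r X).subset hS).toFinset, Set.Finite.coe_toFinset _⟩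
  refine ⟨h1, ?_, ?_⟩
  · intro D hD
    obtain ⟨T, hT⟩ := hfin _ (Set.Subset.refl _)
    obtain ⟨h2, h3⟩ := hav X hX1 H i j L T hT.subset
    have h4 := hup X X D hX3 (by omega) ((hB B₂ (le_max_left _ _)).trans hD) (CH.zer H) hcl T h2 h3
    rw [← hT, AP_eq hk]
    refine h4.trans ?_
    calc c₂ * (X * D * AP.dn 0 X (CH.zer H) ^ k) ≤
        c₂ * (X * D * (d2 / Real.log X ^ H.card) ^ k) := by gcongr
      _ = _ := by rw [div_pow, pow_mul]; ring
  · intro S hS
    obtain ⟨T, hT⟩ := hfin S hS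
    obtain ⟨h2, h3⟩ := hav X hX1 H i j L T (by rw [hT]; exact hS)
    constructor
    · rw [← hT]
      have h4 := hiso X X hX5 (by omega) (CH.zer H) hcl T h2 h3
      have h5 : ({n : ℕ | n ∈ (T : Set ℕ) ∧ ¬ OnAP k (Real.log X ^ (max B₂ (max B₃ B₄))) (T : Set ℕ) n}.ncard : ℝ) ≤
          (Iso k (Real.log X ^ B₄) T).card := by
        rw [← Iso_eq]
        have h6 : {n : ℕ | n ∈ (T : Set ℕ) ∧ ¬ OnAP k (Real.log X ^ (max B₂ (max B₃ B₄))) (T : Set ℕ) n} ⊆
            {n : ℕ | n ∈ (T : Set ℕ) ∧ ¬ OnAP k (Real.log X ^ B₄) (T : Set ℕ) n} := by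
          rintro q ⟨h7, h8⟩
          refine ⟨h7, fun h9 => h8 ?_⟩
          obtain ⟨a, d, g1, g2, g3, g4⟩ := h9
          exact ⟨a, d, g1, g2.trans (hB B₄ ((le_max_right _ _).trans (le_max_right _ _))), g3, g4⟩
        exact_mod_cast Set.ncard_le_ncard h6 (T.finite_toSet.subset fun q hq => hq.1)
      exact h5.trans (h4.trans hηc)
    · intro hcard D hD hDX
      have h4 := hlo X X D hX4 (by omega)
        ((hB B₃ ((le_max_left _ _).trans (le_max_right _ _))).trans hD) hDX (CH.zer H) hcl T h2 h3 (by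
          rw [← hT, Set.ncard_coe_finset] at hcard
          exact hηc.trans hcard)
      rw [← hT, AP_eq hk]
      refine le_trans ?_ h4
      calc c₃ * d1 ^ k * (X * D / Real.log X ^ (H.card * k)) =
          c₃ * (X * D * (d1 / Real.log X ^ H.card) ^ k) := by rw [div_pow, pow_mul]; ring
        _ ≤ _ := by gcongr

/-- **Narrow progressions of Chen tuples.** For every admissible `H`, all `i ≠ j` in `H` and all `L` there is `r` such that
for all `k ≥ 3` and `η > 0` and all large `X`: (1) `G` has at most `c₂ X D / (log X) ^ (|H| k)` progressions of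
length `k` with differences at most `D`, if `D ≥ log ^ B X`; (2) all elements of every subset `S` of `G`, with at most
`η |G|` exceptions, are terms of progressions of length `k` in `S` with differences at most `log ^ B X`; (3) if
`S` has at least `η |G|` elements, it contains at least `c₃ X D / (log X) ^ (|H| k)` progressions with differences at
most `D`, for `log ^ B X ≤ D ≤ X`. -/
theorem result : ∀ H : Finset ℕ, Admissible H → ∀ i ∈ H, ∀ j ∈ H, i ≠ j → ∀ L : ℕ,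
    ∃ r : ℕ, 2 ≤ r ∧ ∀ k : ℕ, 3 ≤ k → ∃ c₂ : ℝ, 0 < c₂ ∧ ∀ η : ℝ, 0 < η →
    ∃ c₃ : ℝ, 0 < c₃ ∧ ∃ B X₀ : ℕ, ∀ X : ℕ, X₀ ≤ X →
    (∀ D : ℕ, Real.log X ^ B ≤ D →
      (AP k D (G H i j L r X) : ℝ) ≤ c₂ * (X * D / Real.log X ^ (H.card * k))) ∧
    ∀ S : Set ℕ, S ⊆ G H i j L r X →
      ({n : ℕ | n ∈ S ∧ ¬ OnAP k (Real.log X ^ B) S n}.ncard : ℝ) ≤ η * (G H i j L r X).ncard ∧
      (η * (G H i j L r X).ncard ≤ S.ncard → ∀ D : ℕ, Real.log X ^ B ≤ D → D ≤ X →
        c₃ * (X * D / Real.log X ^ (H.card * k)) ≤ AP k D S) := by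
  intro H hH i hi j hj hij L
  obtain ⟨r, hr, c₁, -, h⟩ := main H hH i hi j hj hij L
  refine ⟨r, hr, fun k hk => ?_⟩
  obtain ⟨c₂, hc₂, h⟩ := h k hk
  refine ⟨c₂, hc₂, fun η hη => ?_⟩
  obtain ⟨c₃, hc₃, B, X₀, h⟩ := h η hη
  exact ⟨c₃, hc₃, B, X₀, fun X hX => (h X hX).2⟩

end Pool.Agent.Results.MP_3efbeb_nt.ChenTupleProgressions
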