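import Pool.Agent.KS6_51.CH10

/-!
# Chen's theorem for all admissible tuples

Let `H` be a finite set of shifts such that no prime always divides one of the numbers `n + h`, `h ∈ H` (for instance
`{0, 2, 6}` or `{0, 2, 6, 8}`), and let `i ≠ j` be two arbitrary members of `H`. For at least `c X / (log X) ^ |H|` of the integers
`n` in `(X, 2 X]`, the order of magnitude which is expected for the tuples of primes,

* `n + i` is a PRIME,
* `n + j` is a prime or the product of TWO primes, both at least `X ^ (1 / 9)`,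
* all the `n + h`, `h ∈ H`, have at most `r` prime factors, all of them at least `X ^ (1 / r)`,
* all the other numbers `n + t`, `t ≤ L`, `t ∉ H`, have a prime factor `≤ r` (so `H` is the exact pattern of
  the almost primes in the window).

Here `L` is arbitrary, and `r`, `c` depend on `H` and `L` only. In addition, `m` arbitrary residue classes can be forbidden for
every prime between `r` and `X ^ (1 / r)`, and then there are still `c X / (log X) ^ (|H| + m)` integers `n`, with a constant
which does not depend on the classes.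

Proof. Chen's theorem inside arbitrary sifted sets (`Pool.Agent.KS6_51.CH.chen`): the linear sieve with a preliminary sieve
of dimension `m + |H| - 1` for the primes below `X ^ ε`, the theorem of Bombieri and Vinogradov for the primes `n + i`, and
the switching of the roles of `n + i` and `n + j` for the terms with `n + j = p₁ p₂ p₃`, with the theorem
of Bombieri and Vinogradov for the products of three primes. The analytic parts are those of the starting files
(`Pool.Agent.Y843.CH` and the modules cited there); the assembly is new.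
-/

set_option autoImplicit false

namespace Pool.Agent.Results.MP_3efbeb_nt.ChenTuples

open Finset Filter Pool.Agent.KS6_51.CH

/-- No prime divides one of the numbers `n + h`, `h ∈ H`, for every `n`. -/
def Admissible (H : Finset ℕ) : Prop := ∀ p : ℕ, p.Prime → ∃ a : ℕ, ∀ h ∈ H, ¬ p ∣ a + h

/-- `k` is the product of at most `s` primes, all of them at least `y`. -/
def Almost (s : ℕ) (y : ℝ) (k : ℕ) : Prop :=
  k.primeFactorsList.length ≤ s ∧ ∀ p : ℕ, p.Prime → p ∣ k → y ≤ p

theorem adm_of (H : Finset ℕ) (a b : ℕ) (h1 : ∀ h ∈ H, (a + h).Prime) (h2 : ∀ h ∈ H, (b + h).Prime)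
    (h3 : ∀ h ∈ H, ∀ h' ∈ H, a + h ≠ b + h') : Admissible H := by
  intro p hp
  by_cases hc : ∀ h ∈ H, ¬ p ∣ a + h
  · exact ⟨a, hc⟩
  · push Not at hc
    obtain ⟨h, hh, hd⟩ := hc
    refine ⟨b, fun h' hh' hd' => ?_⟩
    have e1 := (Nat.prime_dvd_prime_iff_eq hp (h1 h hh)).1 hd
    have e2 := (Nat.prime_dvd_prime_iff_eq hp (h2 h' hh')).1 hd'
    exact h3 h hh h' hh' (e1.symm.trans e2)

theorem adm3 : Admissible {0, 2, 6} := by
  apply adm_of _ 11 101
  · intro h hh
    simp only [mem_insert, mem_singleton] at hh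
    rcases hh with rfl | rfl | rfl <;> norm_num
  · intro h hh
    simp only [mem_insert, mem_singleton] at hh
    rcases hh with rfl | rfl | rfl <;> norm_num
  · intro h hh h' hh'
    simp only [mem_insert, mem_singleton] at hh hh'
    omega

theorem adm4 : Admissible {0, 2, 6, 8} := by
  apply adm_of _ 11 101
  · intro h hh
    simp only [mem_insert, mem_singleton] at hh
    rcases hh with rfl | rfl | rfl | rfl <;> norm_num
  · intro h hh
    simp only [mem_insert, mem_singleton] at hh
    rcases hh with rfl | rfl | rfl | rfl <;> norm_num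
  · intro h hh h' hh'
    simp only [mem_insert, mem_singleton] at hh hh'
    omega

/-- **Chen's theorem for all admissible tuples.** The sets `{0, 2, 6}` and `{0, 2, 6, 8}` are admissible. Let `H` be an
admissible finite set, let `i ≠ j` be members of `H`, and let `m` and `L` be arbitrary. There are `r` and `c > 0` such
that for all large `X` and all sets `E p` of at most `m` residues there are at least
`c X / (log X) ^ (|H| + m)` integers `n` with `X < n ≤ 2 X` such that `n + i` is prime, `n + j` has at most two prime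
factors (with multiplicity), each at least `X ^ (1 / 9)`, every `n + h`, `h ∈ H`, has at most `r` prime factors, each
at least `X ^ (1 / r)`, every `n + t` with `t ≤ L`, `t ∉ H`, has a prime factor `≤ r`, and `n` is in no
class of `E p` modulo `p` for the primes `p` with `r < p < X ^ (1 / r)`. -/
theorem result : Admissible {0, 2, 6} ∧ Admissible {0, 2, 6, 8} ∧
    ∀ H : Finset ℕ, Admissible H → ∀ i ∈ H, ∀ j ∈ H, i ≠ j → ∀ m L : ℕ,
    ∃ r : ℕ, 2 ≤ r ∧ ∃ c : ℝ, 0 < c ∧ ∃ X₀ : ℕ, ∀ X : ℕ, X₀ ≤ X →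
    ∀ E : ℕ → Finset ℕ, (∀ p : ℕ, (E p).card ≤ m) →
    c * (X / Real.log X ^ (H.card + m)) ≤ (({n : ℕ | (X < n ∧ n ≤ 2 * X) ∧
      (n + i).Prime ∧
      Almost 2 ((X : ℝ) ^ (1 / 9 : ℝ)) (n + j) ∧
      (∀ h ∈ H, Almost r ((X : ℝ) ^ (1 / (r : ℝ))) (n + h)) ∧
      (∀ t : ℕ, t ≤ L → t ∉ H → ∃ p : ℕ, p.Prime ∧ p ≤ r ∧ p ∣ n + t) ∧
      ∀ p : ℕ, p.Prime → r < p → (p : ℝ) < (X : ℝ) ^ (1 / (r : ℝ)) → n % p ∉ E p}.ncard : ℕ) : ℝ) := by
  classical
  refine ⟨adm3, adm4, ?_⟩
  intro H hH i hi j hj hij m L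
  obtain ⟨z₀, hz₀⟩ := tuples H i j hi hj hij m
  -- the primes of the other members of the window
  set B := H.sup id + L + 1 with hB
  set q : ℕ → ℕ := fun t => Nat.nth Nat.Prime (B + t) with hq
  have hinf := Nat.infinite_setOfPred_prime
  have hqp : ∀ t, (q t).Prime := fun t => Nat.prime_nth_prime _
  have hqB : ∀ t, B < q t := by
    intro t
    have := Nat.add_two_le_nth_prime (B + t)
    show B < Nat.nth Nat.Prime (B + t)
    omega
  have hqi : ∀ t t', q t = q t' → t = t' := by
    intro t t' h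
    have := Nat.nth_injective hinf h
    omega
  set z := max z₀ ((range (L + 1)).sup q) with hz
  obtain ⟨r₀, c, hc, hr₀⟩ := hz₀ z (le_max_left _ _)
  set r := max (max r₀ z) 9 with hr
  obtain ⟨X₀, hX₀⟩ := hr₀ r ((le_max_left _ _).trans (le_max_left _ _))
  have hzr : z ≤ r := (le_max_right _ _).trans (le_max_left _ _)
  have hqr : ∀ t ≤ L, q t ≤ z := fun t ht =>
    (le_sup (f := q) (mem_range.2 (by omega : t < L + 1))).trans (le_max_right _ _)
  have hr9 : 9 ≤ r := le_max_right _ _
  refine ⟨r, by omega, c, hc, max X₀ ((r + 2) ^ r), ?_⟩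
  intro X hX E hE
  rw [max_le_iff] at hX
  obtain ⟨hX0, hXr⟩ := hX
  set E' : ℕ → Finset ℕ := fun p => if p ≤ z then (range p).filter (fun a => ∃ t, t ≤ L ∧ t ∉ H ∧
    p = q t ∧ ¬ p ∣ a + t) else if p ≤ r then ∅ else E p with hE'
  have key := hX₀ X hX0 E' (by
    intro p hp hzp
    rw [hE']
    simp only
    rw [if_neg (by omega)]
    split_ifs
    · simp
    · exact hE p) (by
    intro p hp hpz
    by_cases hex : ∃ t, t ≤ L ∧ t ∉ H ∧ p = q t
    · obtain ⟨t, ht, htH, hpt⟩ := hex
      have hBp : B < p := by rw [hpt]; exact hqB t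
      refine ⟨p - t, ?_, ?_⟩
      · rw [hE']
        simp only
        rw [if_pos hpz, mem_filter, not_and]
        rintro - ⟨t', ht', -, hpt', hnd⟩
        have e : t' = t := hqi _ _ (hpt'.symm.trans hpt)
        rw [e] at hnd
        apply hnd
        rw [Nat.dvd_iff_mod_eq_zero, Nat.mod_add_mod, Nat.sub_add_cancel (by omega), Nat.mod_self]
      · intro h hh hd
        have h1 : h ≤ H.sup id := le_sup (f := id) hh
        have h2 : p - t + h ≡ p - t + t [MOD p] := by
          rw [Nat.sub_add_cancel (by omega)]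
          exact ((Nat.modEq_zero_iff_dvd).2 hd).trans ((Nat.modEq_zero_iff_dvd).2 dvd_rfl).symm
        have h3 : h ≡ t [MOD p] := Nat.ModEq.add_left_cancel' _ h2
        have h4 := Nat.ModEq.eq_of_lt_of_lt h3 (by omega) (by omega)
        rw [h4] at hh
        exact htH hh
    · obtain ⟨a, ha⟩ := hH p hp
      refine ⟨a, ?_, ha⟩
      rw [hE']
      simp only
      rw [if_pos hpz, mem_filter, not_and]
      rintro - ⟨t', ht', htH', hpt', -⟩
      exact hex ⟨t', ht', htH', hpt'⟩)
  refine key.trans ?_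
  rw [← Set.ncard_coe_finset]
  have hfin : ({n : ℕ | (X < n ∧ n ≤ 2 * X) ∧
      (n + i).Prime ∧
      Almost 2 ((X : ℝ) ^ (1 / 9 : ℝ)) (n + j) ∧
      (∀ h ∈ H, Almost r ((X : ℝ) ^ (1 / (r : ℝ))) (n + h)) ∧
      (∀ t : ℕ, t ≤ L → t ∉ H → ∃ p : ℕ, p.Prime ∧ p ≤ r ∧ p ∣ n + t) ∧
      ∀ p : ℕ, p.Prime → r < p → (p : ℝ) < (X : ℝ) ^ (1 / (r : ℝ)) → n % p ∉ E p}).Finite :=
    (Set.finite_Iic (2 * X)).subset fun n hn => hn.1.2
  have hsub : ((Tup H i j r X E' : Finset ℕ) : Set ℕ) ⊆ {n : ℕ | (X < n ∧ n ≤ 2 * X) ∧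
      (n + i).Prime ∧
      Almost 2 ((X : ℝ) ^ (1 / 9 : ℝ)) (n + j) ∧
      (∀ h ∈ H, Almost r ((X : ℝ) ^ (1 / (r : ℝ))) (n + h)) ∧
      (∀ t : ℕ, t ≤ L → t ∉ H → ∃ p : ℕ, p.Prime ∧ p ≤ r ∧ p ∣ n + t) ∧
      ∀ p : ℕ, p.Prime → r < p → (p : ℝ) < (X : ℝ) ^ (1 / (r : ℝ)) → n % p ∉ E p} := by
    intro n hn
    rw [mem_coe] at hn
    unfold Tup at hn
    rw [mem_filter, mem_Ioc] at hn
    obtain ⟨h1, h2, h3, h4, h5, h6⟩ := hn
    have hrX : (r : ℝ) < (X : ℝ) ^ (1 / (r : ℝ)) := by
      have h7 : ((r : ℝ) + 2) ^ r ≤ (X : ℝ) := by exact_mod_cast hXr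
      have h8 : (((r : ℝ) + 2) ^ r) ^ (1 / (r : ℝ)) ≤ (X : ℝ) ^ (1 / (r : ℝ)) :=
        Real.rpow_le_rpow (by positivity) h7 (by positivity)
      have hr0 : (r : ℝ) ≠ 0 := by
        have : (9 : ℝ) ≤ r := by exact_mod_cast hr9
        linarith
      rw [← Real.rpow_natCast, ← Real.rpow_mul (by positivity), mul_one_div_cancel hr0,
        Real.rpow_one] at h8
      linarith
    refine ⟨h1, h2, ⟨h3, h4⟩, fun h hh => h5 h hh, ?_, ?_⟩
    · intro t ht htH
      refine ⟨q t, hqp t, (hqr t ht).trans hzr, ?_⟩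
      have h7 := h6 (q t) (hqp t) (by
        have : ((q t : ℕ) : ℝ) ≤ r := by exact_mod_cast (hqr t ht).trans hzr
        linarith)
      by_contra hnd
      apply h7
      rw [hE']
      simp only
      rw [if_pos (hqr t ht), mem_filter, mem_range]
      refine ⟨Nat.mod_lt _ (hqp t).pos, t, ht, htH, rfl, ?_⟩
      rw [Nat.dvd_iff_mod_eq_zero, Nat.mod_add_mod]
      rwa [Nat.dvd_iff_mod_eq_zero] at hnd
    · intro p hp hrp hpX
      have h7 := h6 p hp hpX
      rw [hE'] at h7
      simp only at h7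
      rw [if_neg (by omega), if_neg (by omega)] at h7
      exact h7
  exact_mod_cast Set.ncard_le_ncard hsub hfin

end Pool.Agent.Results.MP_3efbeb_nt.ChenTuples
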