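import Pool.Agent.KS6_51.INVC.Fam

set_option autoImplicit false

/-!
# Admissible tuples of almost primes, at all coordinates of the points of invariant sets modulo `p`

Let `h_1, ..., h_k` be an admissible tuple of natural numbers, for instance `0, 2, 6` or `0, 2, 6, 8`.  We look for `n`
in the interval `[m, m + p)` such that all the numbers `n + h_i` are almost primes, where `p` is a prime with
`m ≤ p^B` (so that the interval can be as short as any fixed power of `m`) and `h_i ≤ p^B`; everything is uniform in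
the tuple, which may vary with `p`.  Let `Ω` be an ARBITRARY set of vectors modulo `p` with `r` coordinates which is
mapped onto itself by some affine maps, such that every nonzero linear functional has at least `T` images under
(products of) the linear parts.  If `(∏ N_j)² |Ω| T ≥ p^(3r + ε)` then the number of the vectors in `Ω` with the least
residues `x_j` of all `r` coordinates in given intervals `[A_j, A_j + N_j)`, and such that for each of the `r` numbers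
`n = m + x_j` all `n + h_i` have at most `R` prime factors, all larger than `p^κ`, is at least a constant times
`(∏ N_j) |Ω| p^(-r) (log p)^(-k r)`.

Three cases: affine groups, in the form above; sets of elements of the field with `p^r` elements which are closed under
the multiplication with a subgroup `U` of its multiplicative group, coordinates with respect to any basis, `T = |U|`;
sets of `d`-dimensional arrays (matrices, tensors) closed under the addition of multiples of slices to slices in the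
directions of a set `D`, `T = p^(1 + ∑_{j ∈ D} (n_j - 1))`.

Proof (`Pool.Agent.KS6_51.INV`, `Pool.Agent.KS6_51.INVC`).  The modulus of the Fourier transform of `Ω` is constant on
the orbits of the functionals, and Parseval's identity bounds it.  The rest is the fundamental lemma of the sieve for
vectors of integers in the form of the starting library (`Pool.Agent.Q46.SL`, `Pool.Agent.Q20.RG.primeC`).
-/

namespace Pool.Agent.Results.MP_3efbeb_nt.InvariantTuples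

open Finset Matrix Module Polynomial
open Pool.Agent.Q46.SL hiding Almost
open Pool.Agent.KS6_51.INVC hiding Count

/-- `n` is not zero and has at most `R` prime factors (counted with multiplicity), all larger than `z` -/
def Almost (z : ℝ) (R : ℕ) (n : ℤ) : Prop :=
  n ≠ 0 ∧ n.natAbs.primeFactorsList.length ≤ R ∧ ∀ q : ℕ, q.Prime → (q : ℤ) ∣ n → z < q

/-- for every prime `q` some `a` is such that `q` divides no `a + h j` -/
def Admissible {k : ℕ} (h : Fin k → ℕ) : Prop := ∀ q : ℕ, q.Prime → ∃ a : ℕ, ∀ j, ¬ q ∣ a + h j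

/-- all the numbers `m + x + h j` have at most `R` prime factors, all larger than `z` -/
def Tuple {k : ℕ} (h : Fin k → ℕ) (m : ℕ) (z : ℝ) (R : ℕ) (x : ℕ) : Prop := ∀ j, Almost z R ((m : ℤ) + x + h j)

/-- the number of the `v` in `Ω` all of whose coordinates `c v j` have their least residue in `[A j, A j + N j)` and
with the property `P` -/
noncomputable def Count {V J : Type} {p : ℕ} (Ω : Finset V) (c : V → J → ZMod p) (A N : J → ℕ) (P : ℕ → Prop) : ℕ :=
  {v : V | v ∈ Ω ∧ ∀ j, (A j ≤ (c v j).val ∧ (c v j).val < A j + N j) ∧ P (c v j).val}.ncard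

/-- the intervals `[A j, A j + N j)` are in `[0, p)` and have length at least `p ^ ε` -/
def Boxes {J : Type} (ε : ℝ) (p : ℕ) (A N : J → ℕ) : Prop := ∀ j, A j + N j ≤ p ∧ (p : ℝ) ^ ε ≤ N j

/-- every set of row vectors which contains a nonzero vector and is closed under `h ↦ h M`, `(M, b) ∈ Γ`, has at least
`T` elements -/
def LargeOrbits {p r : ℕ} (Γ : Set (Matrix (Fin r) (Fin r) (ZMod p) × (Fin r → ZMod p))) (T : ℝ) : Prop :=
  ∀ H : Finset (Fin r → ZMod p), (∃ h ∈ H, h ≠ 0) → (∀ γ ∈ Γ, ∀ h ∈ H, h ᵥ* γ.1 ∈ H) → T ≤ H.card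

/-- the array `X` with `s` times the slice `i j = b` added to the slice `i j = a` -/
def addSlice {p k : ℕ} {n : Fin k → ℕ} (j : Fin k) (a b : Fin (n j)) (s : ZMod p)
    (X : (∀ j, Fin (n j)) → ZMod p) : (∀ j, Fin (n j)) → ZMod p :=
  fun i => if i j = a then X i + s * X (Function.update i j b) else X i

lemma adm4 : Admissible ![0, 2, 6, 8] := by
  intro q hq
  by_cases h11 : 11 ≤ q
  · have hn : ∀ t : ℕ, 0 < t → t ≤ 9 → ¬ q ∣ t := by
      intro t ht ht9 h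
      have := Nat.le_of_dvd ht h
      omega
    refine ⟨1, fun j => ?_⟩
    fin_cases j
    · exact hn _ (by norm_num) (by norm_num)
    · exact hn _ (by norm_num) (by norm_num)
    · exact hn _ (by norm_num) (by norm_num)
    · exact hn _ (by norm_num) (by norm_num)
  · have h2 := hq.two_le
    interval_cases q
    · exact ⟨1, by decide⟩
    · exact ⟨2, by decide⟩
    · exact absurd hq (by norm_num)
    · exact ⟨1, by decide⟩
    · exact absurd hq (by norm_num)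
    · exact ⟨2, by decide⟩
    · exact absurd hq (by norm_num)
    · exact absurd hq (by norm_num)
    · exact absurd hq (by norm_num)

lemma adm3 : Admissible ![0, 2, 6] := by
  intro q hq
  obtain ⟨a, ha⟩ := adm4 q hq
  refine ⟨a, fun j => ?_⟩
  fin_cases j
  · exact ha 0
  · exact ha 1
  · exact ha 2

lemma shift {k : ℕ} (h : Fin k → ℕ) (hh : Admissible h) (m q : ℕ) (hq : q.Prime) :
    ∃ a < q, ∀ j, ¬ (q : ℤ) ∣ (m : ℤ) + h j + (a : ℤ) := by
  obtain ⟨b, hb⟩ := hh q hq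
  have hq0 : (0 : ℤ) < q := by exact_mod_cast hq.pos
  refine ⟨(((b : ℤ) - m) % q).toNat, ?_, fun j hd => hb j ?_⟩
  · have h1 := Int.emod_lt_of_pos ((b : ℤ) - m) hq0
    have h2 := Int.emod_nonneg ((b : ℤ) - m) hq0.ne'
    omega
  · rw [Int.toNat_of_nonneg (Int.emod_nonneg _ hq0.ne')] at hd
    have e : (m : ℤ) + h j + ((b : ℤ) - m) % q = ((b : ℤ) + h j) - q * (((b : ℤ) - m) / q) := by
      have := Int.emod_add_mul_ediv ((b : ℤ) - m) q
      linarith
    rw [e] at hd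
    have h3 : (q : ℤ) ∣ (b : ℤ) + h j := (dvd_sub_left (dvd_mul_right _ _)).1 hd
    exact_mod_cast h3

/-- the polynomials -/
noncomputable def sys {k : ℕ} (h : Fin k → ℕ) (hh : Admissible h) (m : ℕ) : PE k 0 k where
  f := fun j => C ((m : ℤ) + h j) + X
  E := fun _ => ∅
  deg := by
    refine (sum_le_card_nsmul univ _ 1 fun j _ => ?_).trans (by simp)
    compute_degree
  adm := by
    intro q hq
    obtain ⟨a, ha, h0⟩ := shift h hh m q hq
    refine ⟨by simp, a, ha, by simp, fun j => ?_⟩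
    simpa using h0 j

lemma tuple_of {k : ℕ} (h : Fin k → ℕ) (hh : Admissible h) (B p m : ℕ) (hp2 : 8 ≤ p) (hm : (m : ℝ) ≤ (p : ℝ) ^ B)
    (hhB : ∀ j, (h j : ℝ) ≤ (p : ℝ) ^ B) (κ : ℝ) (x : ℕ) (hx : x < p) (hN : Near (B + 4) (sys h hh m) κ p x) :
    Tuple h m ((p : ℝ) ^ κ) ⌊(((B + 4 : ℕ) : ℝ) + (k : ℝ) + 1) / κ⌋₊ x := by
  obtain ⟨h0, h12⟩ := hN
  have hp2' : (8 : ℝ) ≤ p := by exact_mod_cast hp2
  have hP1 : (1 : ℝ) ≤ (p : ℝ) ^ B := one_le_pow₀ (by linarith)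
  have hm0 : (0 : ℝ) ≤ m := Nat.cast_nonneg m
  have hbig : 2 * (p : ℝ) ^ B + 1 ≤ (p : ℝ) ^ (B + 4) := by
    rw [pow_add]
    have e1 : (16 : ℝ) ≤ (p : ℝ) ^ 4 := by
      calc (16 : ℝ) ≤ 8 ^ 4 := by norm_num
        _ ≤ _ := pow_le_pow_left₀ (by norm_num) hp2' 4
    nlinarith
  obtain ⟨h1, -⟩ := h12 (by
    intro j
    refine cb_mono (cb_add (cb_C _) cb_X) ?_
    push_cast
    have ht0 : (0 : ℝ) ≤ h j := Nat.cast_nonneg _
    rw [abs_of_nonneg (by positivity)]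
    have := hhB j
    linarith) (by exact_mod_cast hx.le)
  intro j
  have e : (m : ℤ) + x + h j = (m : ℤ) + h j + x := by ring
  rw [e]
  have := h1 j
  simpa [sys, Almost, Pool.Agent.Q46.SL.Almost] using this

/-- **Tuples of almost primes at invariant sets.**  `{0, 2, 6}` and `{0, 2, 6, 8}` are admissible.  `p` is a large
prime, `h` any admissible tuple of `k` numbers, `m ≤ p ^ B`, `h j ≤ p ^ B`.

1. Sets `Ω` of vectors modulo `p` which are mapped onto themselves by the affine maps `v ↦ M v + b`, `(M, b) ∈ Γ`.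

2. Sets `Ω` of elements of a field of degree `r` over the prime field, closed under the multiplication with the
elements of a subgroup `U` of the multiplicative group; coordinates with respect to a basis.

3. Sets `Ω` of arrays of the format `n 0 × ... × n (d - 1)`, closed under the addition of multiples of slices to other
slices in the directions of `D`. -/
theorem result : Admissible ![0, 2, 6] ∧ Admissible ![0, 2, 6, 8] ∧ ∀ k B : ℕ,
    (∀ r : ℕ, ∀ ε : ℝ, 0 < ε → ε ≤ 1 → ∃ κ : ℝ, 0 < κ ∧ ∃ cc : ℝ, 0 < cc ∧ ∃ R p₀ : ℕ,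
      ∀ p : ℕ, p₀ ≤ p → ∀ [Fact p.Prime], ∀ h : Fin k → ℕ, Admissible h → (∀ j, (h j : ℝ) ≤ (p : ℝ) ^ B) →
      ∀ m : ℕ, (m : ℝ) ≤ (p : ℝ) ^ B →
      ∀ (Γ : Set (Matrix (Fin r) (Fin r) (ZMod p) × (Fin r → ZMod p))) (T : ℝ), LargeOrbits Γ T →
      ∀ Ω : Finset (Fin r → ZMod p), (∀ γ ∈ Γ, Set.BijOn (fun v => γ.1 *ᵥ v + γ.2) Ω Ω) →
      ∀ A N : Fin r → ℕ, Boxes ε p A N →
        (p : ℝ) ^ (3 * (r : ℝ) + ε) ≤ (∏ j, (N j : ℝ)) ^ 2 * Ω.card * T →
        cc * ((∏ j, (N j : ℝ)) * Ω.card / (p : ℝ) ^ r) / Real.log p ^ (k * r) ≤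
          Count Ω (fun v => v) A N (Tuple h m ((p : ℝ) ^ κ) R)) ∧
    (∀ r : ℕ, ∀ ε : ℝ, 0 < ε → ε ≤ 1 → ∃ κ : ℝ, 0 < κ ∧ ∃ cc : ℝ, 0 < cc ∧ ∃ R p₀ : ℕ,
      ∀ p : ℕ, p₀ ≤ p → ∀ [Fact p.Prime], ∀ h : Fin k → ℕ, Admissible h → (∀ j, (h j : ℝ) ≤ (p : ℝ) ^ B) →
      ∀ m : ℕ, (m : ℝ) ≤ (p : ℝ) ^ B →
      ∀ (F : Type) [Field F] [Algebra (ZMod p) F] (b : Basis (Fin r) (ZMod p) F) (U : Subgroup Fˣ) (Ω : Finset F),
      (∀ u ∈ U, ∀ y ∈ Ω, (u : F) * y ∈ Ω) →
      ∀ A N : Fin r → ℕ, Boxes ε p A N →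
        (p : ℝ) ^ (3 * (r : ℝ) + ε) ≤ (∏ j, (N j : ℝ)) ^ 2 * Ω.card * Nat.card U →
        cc * ((∏ j, (N j : ℝ)) * Ω.card / (p : ℝ) ^ r) / Real.log p ^ (k * r) ≤
          Count Ω (fun y j => b.repr y j) A N (Tuple h m ((p : ℝ) ^ κ) R)) ∧
    (∀ (d : ℕ) (n : Fin d → ℕ), (∀ j, 1 ≤ n j) → ∀ D : Finset (Fin d), (∃ j ∈ D, 2 ≤ n j) →
      ∀ ε : ℝ, 0 < ε → ε ≤ 1 → ∃ κ : ℝ, 0 < κ ∧ ∃ cc : ℝ, 0 < cc ∧ ∃ R p₀ : ℕ,
      ∀ p : ℕ, p₀ ≤ p → ∀ [Fact p.Prime], ∀ h : Fin k → ℕ, Admissible h → (∀ j, (h j : ℝ) ≤ (p : ℝ) ^ B) →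
      ∀ m : ℕ, (m : ℝ) ≤ (p : ℝ) ^ B →
      ∀ Ω : Finset ((∀ j, Fin (n j)) → ZMod p),
      (∀ j ∈ D, ∀ a b : Fin (n j), a ≠ b → ∀ s : ZMod p, ∀ X ∈ Ω, addSlice j a b s X ∈ Ω) →
      ∀ A N : (∀ j, Fin (n j)) → ℕ, Boxes ε p A N →
        (p : ℝ) ^ (3 * (∏ j, (n j : ℝ)) - ∑ j ∈ D, ((n j : ℝ) - 1) - 1 + ε) ≤ (∏ i, (N i : ℝ)) ^ 2 * Ω.card →
        cc * ((∏ i, (N i : ℝ)) * Ω.card / (p : ℝ) ^ (∏ j, n j)) / Real.log p ^ (k * ∏ j, n j) ≤
          Count Ω (fun X => X) A N (Tuple h m ((p : ℝ) ^ κ) R)) := by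
  refine ⟨adm3, adm4, fun k B => ?_⟩
  have hlg : ∀ (a p s : ℕ) (t : ℝ), t * lg (0 + k) a p ≤ (s : ℝ) → t / Real.log p ^ (k * a) ≤ s := by
    intro a p s t h
    rw [zero_add] at h
    rwa [lg, mul_one_div] at h
  refine ⟨?_, ?_, ?_⟩
  · intro r ε h0 h1
    obtain ⟨κ, hκ, cc, hcc, p₀, hf⟩ := famA (Near (B + 4) : PE k 0 k → ℝ → ℝ → ℤ → Prop)
      (lg (0 + k)) (fun r => csN k 0 k (B + 4) r) r ε h0 h1
    refine ⟨κ, hκ, cc, hcc, ⌊(((B + 4 : ℕ) : ℝ) + (k : ℝ) + 1) / κ⌋₊, max p₀ 8, ?_⟩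
    intro p hp _ h hh hB m hm Γ T hT Ω hΩ A N hAN hW
    exact hlg _ _ _ _ (hf p ((le_max_left _ _).trans hp) (sys h hh m) _
      (fun x hx hnear => tuple_of h hh B p m ((le_max_right _ _).trans hp) hm hB κ x hx hnear) Γ T hT Ω hΩ A N hAN hW)
  · intro r ε h0 h1
    obtain ⟨κ, hκ, cc, hcc, p₀, hf⟩ := famF (Near (B + 4) : PE k 0 k → ℝ → ℝ → ℤ → Prop)
      (lg (0 + k)) (fun r => csN k 0 k (B + 4) r) r ε h0 h1
    refine ⟨κ, hκ, cc, hcc, ⌊(((B + 4 : ℕ) : ℝ) + (k : ℝ) + 1) / κ⌋₊, max p₀ 8, ?_⟩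
    intro p hp _ h hh hB m hm F _ _ b U Ω hΩ A N hAN hW
    exact hlg _ _ _ _ (hf p ((le_max_left _ _).trans hp) (sys h hh m) _
      (fun x hx hnear => tuple_of h hh B p m ((le_max_right _ _).trans hp) hm hB κ x hx hnear) F b U Ω hΩ A N hAN hW)
  · intro d n hn D hD ε h0 h1
    obtain ⟨κ, hκ, cc, hcc, p₀, hf⟩ := famT (Near (B + 4) : PE k 0 k → ℝ → ℝ → ℤ → Prop)
      (lg (0 + k)) (fun r => csN k 0 k (B + 4) r) d n hn D hD ε h0 h1
    refine ⟨κ, hκ, cc, hcc, ⌊(((B + 4 : ℕ) : ℝ) + (k : ℝ) + 1) / κ⌋₊, max p₀ 8, ?_⟩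
    intro p hp _ h hh hB m hm Ω hΩ A N hAN hW
    exact hlg _ _ _ _ (hf p ((le_max_left _ _).trans hp) (sys h hh m) _
      (fun x hx hnear => tuple_of h hh B p m ((le_max_right _ _).trans hp) hm hB κ x hx hnear) Ω hΩ A N hAN hW)

end Pool.Agent.Results.MP_3efbeb_nt.InvariantTuples
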