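import Pool.Agent.KS6_25.SH.G7

/-!
# Prime triples, quadruples, ... : the law of Hardy and Littlewood for almost all shifts in short boxes

For almost all vectors `(b_1, ..., b_k)` of shifts in EVERY box whose sides are at least `N ^ (1 / 3 + ρ)`, the
numbers `n`, `n + b_1`, ..., `n + b_k` are all prime for the expected number of `n` in all windows of length
`≥ N / log ^ A N` (prime triples for `k = 2`, prime quadruples for `k = 3`). More generally this holds for the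
systems `n`, `a_1 n + b_1`, ..., `a_k n + b_k` with all slopes `|a_i| ≤ log ^ D N` at the same time, for all vectors
`b` within `log ^ W N` of `(v_1, ..., v_k)`, for almost all members of products of thin families `v_i` in short
intervals, if their additive energies are minimal up to a power of `log N`.

Proof. The mean square of the exponential sum with the von Mangoldt function minus its sieve model over the
`N ^ (2 / 3 - ρ)` consecutive frequencies `α + s / (2 N + 1)` is smaller than the trivial bound by any power of `log N`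
(`Pool.Agent.KS6_25.SH.kest`). With arbitrary weights on the other factors this gives
(`Pool.Agent.KS6_25.SH.mom_short`) the first moment of the error which arises when one of the primes is replaced by
the sieve model, and the primes are replaced one after the other. The main terms are those of the library
(`Pool.Agent.TH935.TF`).
-/

set_option autoImplicit false

namespace Pool.Agent.Results.MP_3efbeb_nt.ShortBoxes

open Finset Filter Topology
open Pool.Agent.TH935.TF (consA consB HW om Adm Gz Fq sys_lam HW)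
open Pool.Agent.KS6_25.SH (fam_short transferP_short nbhd_short)

/-- The number of residue classes of `n` modulo `p` with `∏ i, (a i * n + b i) ≡ 0 (mod p)`. -/
def omega {m : ℕ} (a b : Fin m → ℤ) (p : ℕ) : ℕ :=
  ((range p).filter (fun n : ℕ => (p : ℤ) ∣ ∏ i, (a i * (n : ℤ) + b i))).card

/-- The product over the primes `p ≤ z` of the factors `(1 - ω(p) / p) / (1 - 1 / p) ^ m` of the singular series. -/
noncomputable def eulerProd {m : ℕ} (a b : Fin m → ℤ) (z : ℕ) : ℝ :=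
  ∏ p ∈ (Icc 1 z).filter Nat.Prime, (1 - (omega a b p : ℝ) / p) / (1 - 1 / (p : ℝ)) ^ m

/-- The number of `n` with `y₁ < n ≤ y₂` such that `|a i * n + b i|` is prime for every `i`. -/
def count {m : ℕ} (a b : Fin m → ℤ) (y₁ y₂ : ℕ) : ℕ :=
  ((Ioc y₁ y₂).filter (fun n : ℕ => ∀ i, (a i * (n : ℤ) + b i).natAbs.Prime)).card

/-- The polynomials `a i * x + b i` are not constant, no two of them are equal up to sign, and their product has no
fixed prime divisor. -/
def Admissible {m : ℕ} (a b : Fin m → ℤ) : Prop :=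
  (∀ i, a i ≠ 0) ∧
  (∀ i j, i ≠ j → ¬ (a i = a j ∧ b i = b j) ∧ ¬ (a i = -a j ∧ b i = -b j)) ∧
  (∀ p : ℕ, p.Prime → ∃ n : ℤ, ¬ (p : ℤ) ∣ ∏ i, (a i * n + b i))

/-- **The law of Hardy and Littlewood at the scale `N`** for the system of the polynomials `a i * x + b i`, `i < m`:
the singular series converges to a positive number `S`, and for all `y₁ ≤ y₂ ≤ B N` with `y₂ - y₁ ≥ N / log ^ A N`
the number of the `n` with `y₁ < n ≤ y₂` for which all `|a i * n + b i|` are primes is `S (y₂ - y₁) / log ^ m N`, up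
to a relative error of at most `ε`. -/
def HL (ε : ℝ) (A B N : ℕ) {m : ℕ} (a b : Fin m → ℤ) : Prop :=
  ∃ S : ℝ, 0 < S ∧ Tendsto (eulerProd a b) atTop (𝓝 S) ∧
    ∀ y₁ y₂ : ℕ, y₁ ≤ y₂ → y₂ ≤ B * N → (N : ℝ) / Real.log N ^ A ≤ (y₂ : ℝ) - y₁ →
      |(count a b y₁ y₂ : ℝ) - S * ((y₂ : ℝ) - y₁) / Real.log N ^ m| ≤ ε * (S * ((y₂ : ℝ) - y₁) / Real.log N ^ m)

/-- The law of Hardy and Littlewood for the systems `x`, `a_1 x + b_1`, ..., `a_k x + b_k`, for all slopes
`|a_i| ≤ log ^ D N` for which the system is admissible. -/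
def Law (ε : ℝ) (A B D N : ℕ) {k : ℕ} (b : Fin k → ℤ) : Prop :=
  ∀ a : Fin k → ℤ, (∀ i, |(a i : ℝ)| ≤ Real.log N ^ D) →
    Admissible (Fin.cons 1 a : Fin (k + 1) → ℤ) (Fin.cons 0 b) →
    HL ε A B N (Fin.cons 1 a : Fin (k + 1) → ℤ) (Fin.cons 0 b)

/-- The additive energy of order `h` of a finite family of integers: the number of the solutions of
`v (x 1) + ... + v (x h) = v (y 1) + ... + v (y h)`. -/
noncomputable def energy (h : ℕ) {ι : Type} [Fintype ι] (v : ι → ℤ) : ℕ :=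
  Nat.card {q : (Fin h → ι) × (Fin h → ι) // ∑ j, v (q.1 j) = ∑ j, v (q.2 j)}

lemma dvd_prod_iff {m : ℕ} (a b : Fin m → ℤ) (p : ℕ) (hp : p.Prime) (n : ℤ) :
    (p : ℤ) ∣ ∏ i, (a i * n + b i) ↔ ∃ i, (p : ℤ) ∣ a i * n + b i := by
  have h := (Nat.prime_iff_prime_int.1 hp).dvd_finsetProd_iff (S := univ) (fun i => a i * n + b i)
  simpa using h

lemma omega_eq {m : ℕ} (a b : Fin m → ℤ) (p : ℕ) (hp : p.Prime) : omega a b p = om a b p := by
  unfold omega om
  congr 1
  apply filter_congr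
  intro n _
  exact dvd_prod_iff a b p hp n

lemma euler_eq {m : ℕ} (a b : Fin m → ℤ) : eulerProd a b = fun z => Gz (om a b) m z := by
  funext z
  unfold eulerProd Gz Fq Pool.Agent.H373R2.T7.pz
  apply prod_congr rfl
  intro p hp
  rw [omega_eq a b p (mem_filter.1 hp).2]

lemma adm_of {m : ℕ} (a b : Fin m → ℤ) (h : Admissible a b) : Adm a b := by
  intro p hp
  obtain ⟨n, hn⟩ := h.2.2 p hp
  refine ⟨n, fun i hi => hn ?_⟩
  exact (dvd_prod_iff a b p hp n).2 ⟨i, hi⟩

lemma law_of {k : ℕ} {ε : ℝ} {A B D N : ℕ} {β : Fin k → ℤ} (h : HW consA consB ε A (B + 1) D N β) : Law ε A B D N β := by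
  intro a ha hadm
  have h1 : (Fin.cons 1 a : Fin (k + 1) → ℤ) = consA a := rfl
  have h2 : (Fin.cons 0 β : Fin (k + 1) → ℤ) = consB β := rfl
  rw [h1, h2] at hadm ⊢
  obtain ⟨S, hS0, hSt, hS⟩ := h a (fun i => by have := hadm.1 i.succ; rwa [Pool.Agent.TH935.TF.consA_succ] at this)
    (fun i => by rw [Nat.cast_natAbs, Int.cast_abs]; exact ha i) (adm_of _ _ hadm) hadm.2.1
  exact ⟨S, hS0, by rw [euler_eq]; exact hSt, fun y₁ y₂ h3 h4 h5 =>
    hS y₁ y₂ h3 (h4.trans (Nat.mul_le_mul_right _ (Nat.le_succ B))) h5⟩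

/-- the general form, small `ρ` -/
theorem main {k : ℕ} (hk : 1 ≤ k) (h A B C D W U : ℕ) (hh : 1 ≤ h) {ρ : ℝ} (hρ : 0 < ρ) (hρ1 : ρ ≤ 1 / 4) (ε : ℝ) (hε : 0 < ε) :
    ∃ N₀ : ℕ, ∀ N : ℕ, N₀ ≤ N → ∀ (s : Fin k → ℤ) (H : Fin k → ℕ), (∀ i, (N : ℝ) ^ (1 / 3 + ρ) ≤ H i) → (∀ i, H i ≤ N) →
      ∀ (ι : Fin k → Type) [∀ i, Fintype (ι i)] (v : ∀ i, ι i → ℤ),
      (∀ i j, |v i j| ≤ B * N) → (∀ i j, s i ≤ v i j ∧ v i j ≤ s i + H i) →
      (∀ i, (energy h (v i) : ℝ) * H i ≤ Real.log N ^ C * (Fintype.card (ι i) : ℝ) ^ (2 * h)) →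
      ∀ 𝒮 : Finset (∀ i, ι i), (∀ q ∈ 𝒮, ¬ ∀ b : Fin k → ℤ, (∀ i, |(b i : ℝ) - v i (q i)| ≤ Real.log N ^ W) → Law ε A B D N b) →
      (𝒮.card : ℝ) ≤ (∏ i, (Fintype.card (ι i) : ℝ)) / Real.log N ^ U := by
  classical
  obtain ⟨N₀, h0⟩ := nbhd_short h B C W U (ρ := ρ) (fun N β => HW (k := k) consA consB ε A (B + 1) D N β) (fun U' =>
    transferP_short h (B + 1) C U' ρ (fun N β => HW consA consB ε A (B + 1) D N β)
      (fam_short (sys_lam k hk) hk h A (B + 1) C D U' hh hρ hρ1 ε hε))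
  refine ⟨N₀, fun N hN s H h1 h2 ι _ v h3 h4 h5 𝒮 hS => h0 N hN s H h1 h2 ι v h3 h4 h5 𝒮 ?_⟩
  intro q hq hcon
  exact hS q hq fun b hb => law_of (hcon b hb)

/-- **Theorem.** (1) Let `k, h ≥ 1`, `A, B, C, D, W, U` be natural numbers and `ρ, ε > 0`. For all large `N`, all lengths
`N ^ (1 / 3 + ρ) ≤ H i ≤ N`, all integers `s i` and all finite families `v i` (`i < k`) of integers in the intervals
`[s i, s i + H i]`, `|v i j| ≤ B N`, with additive energies
`energy h (v i) * H i ≤ log ^ C N * |ι i| ^ (2 h)`, the following holds for all but at most `(∏ |ι i|) / log ^ U N` of the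
`q ∈ ∏ ι i`: for ALL vectors `b` with `|b i - v i (q i)| ≤ log ^ W N` for all `i` and all slopes `|a i| ≤ log ^ D N` for
which the system `x`, `a i * x + b i` is admissible, the law of Hardy and Littlewood holds in all windows.

(2) In particular, for all but at most `(∏ H i) / log ^ U N` of the vectors `b` of every box
`∏ [s i, s i + H i]`, `|s i| ≤ B N`, the law of Hardy and Littlewood holds for `n`, `n + b_1`, ..., `n + b_k` if this
system is admissible (prime triples for `k = 2` and prime quadruples for `k = 3`). -/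
theorem result :
    (∀ (k h A B C D W U : ℕ) (ρ ε : ℝ), 1 ≤ k → 1 ≤ h → 0 < ρ → 0 < ε → ∃ N₀ : ℕ, ∀ N : ℕ, N₀ ≤ N →
      ∀ (s : Fin k → ℤ) (H : Fin k → ℕ), (∀ i, (N : ℝ) ^ (1 / 3 + ρ) ≤ H i) → (∀ i, H i ≤ N) →
      ∀ (ι : Fin k → Type) [∀ i, Fintype (ι i)] (v : ∀ i, ι i → ℤ),
      (∀ i j, |v i j| ≤ B * N) → (∀ i j, s i ≤ v i j ∧ v i j ≤ s i + H i) →
      (∀ i, (energy h (v i) : ℝ) * H i ≤ Real.log N ^ C * (Fintype.card (ι i) : ℝ) ^ (2 * h)) →
      (Nat.card {q : ∀ i, ι i // ¬ ∀ b : Fin k → ℤ, (∀ i, |(b i : ℝ) - v i (q i)| ≤ Real.log N ^ W) →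
        Law ε A B D N b} : ℝ) ≤ (∏ i, (Fintype.card (ι i) : ℝ)) / Real.log N ^ U) ∧
    (∀ (k A B U : ℕ) (ρ ε : ℝ), 1 ≤ k → 0 < ρ → 0 < ε → ∃ N₀ : ℕ, ∀ N : ℕ, N₀ ≤ N →
      ∀ (s : Fin k → ℤ) (H : Fin k → ℕ), (∀ i, (N : ℝ) ^ (1 / 3 + ρ) ≤ H i) → (∀ i, H i ≤ N) → (∀ i, |s i| ≤ B * N) →
      (Nat.card {b : Fin k → ℤ // (∀ i, s i ≤ b i ∧ b i ≤ s i + H i) ∧
        Admissible (fun _ : Fin (k + 1) => 1) (Fin.cons 0 b) ∧ ¬ HL ε A B N (fun _ : Fin (k + 1) => 1) (Fin.cons 0 b)} : ℝ) ≤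
        (∏ i, (H i : ℝ)) / Real.log N ^ U) := by
  classical
  have part1 : ∀ (k h A B C D W U : ℕ) (ρ ε : ℝ), 1 ≤ k → 1 ≤ h → 0 < ρ → 0 < ε → ∃ N₀ : ℕ, ∀ N : ℕ, N₀ ≤ N →
      ∀ (s : Fin k → ℤ) (H : Fin k → ℕ), (∀ i, (N : ℝ) ^ (1 / 3 + ρ) ≤ H i) → (∀ i, H i ≤ N) →
      ∀ (ι : Fin k → Type) [∀ i, Fintype (ι i)] (v : ∀ i, ι i → ℤ),
      (∀ i j, |v i j| ≤ B * N) → (∀ i j, s i ≤ v i j ∧ v i j ≤ s i + H i) →
      (∀ i, (energy h (v i) : ℝ) * H i ≤ Real.log N ^ C * (Fintype.card (ι i) : ℝ) ^ (2 * h)) →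
      (Nat.card {q : ∀ i, ι i // ¬ ∀ b : Fin k → ℤ, (∀ i, |(b i : ℝ) - v i (q i)| ≤ Real.log N ^ W) →
        Law ε A B D N b} : ℝ) ≤ (∏ i, (Fintype.card (ι i) : ℝ)) / Real.log N ^ U := by
    intro k h A B C D W U ρ ε hk hh hρ hε
    obtain ⟨N₀, h0⟩ := main hk h A B C D W U hh (ρ := min ρ (1 / 4)) (lt_min hρ (by norm_num)) (min_le_right _ _) ε hε
    refine ⟨N₀ + 1, fun N hN s H h1 h2 ι _ v h3 h4 h5 => ?_⟩
    have hN1 : (1 : ℝ) ≤ N := by exact_mod_cast (by omega : 1 ≤ N)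
    rw [Nat.card_eq_fintype_card, Fintype.card_subtype]
    refine h0 N (by omega) s H (fun i => le_trans ?_ (h1 i)) h2 ι v h3 h4 h5 _ (fun q hq => (mem_filter.1 hq).2)
    apply Real.rpow_le_rpow_of_exponent_le hN1
    linarith [min_le_left ρ (1 / 4)]
  refine ⟨part1, ?_⟩
  intro k A B U ρ ε hk hρ hε
  obtain ⟨N₀, h0⟩ := part1 k 1 A (B + 1) 1 0 0 (U + k) ρ ε hk le_rfl hρ hε
  obtain ⟨N₁, h1⟩ := Pool.Agent.H373R2.T7.ev_L' 2
  refine ⟨N₀ + N₁ + 1, fun N hN s H hH1 hH2 hs => ?_⟩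
  have hL2 := h1 N (by omega)
  have hL0 : 0 < Real.log (N : ℝ) := by linarith
  have hN1 : (1 : ℝ) ≤ N := by exact_mod_cast (by omega : 1 ≤ N)
  have hHpos : ∀ i, (1 : ℝ) ≤ H i := fun i => (Real.one_le_rpow hN1 (by linarith)).trans (hH1 i)
  obtain ⟨v, hv⟩ : ∃ v : ∀ i : Fin k, Fin (H i + 1) → ℤ, v = fun i j => s i + ((j.val : ℕ) : ℤ) := ⟨_, rfl⟩
  have hvinj : ∀ i, Function.Injective (v i) := by
    intro i j j' hj
    rw [hv] at hj
    simp only [add_right_inj, Nat.cast_inj] at hj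
    exact Fin.ext hj
  have key := h0 N (by omega) s H hH1 hH2 (fun i => Fin (H i + 1)) v (by
      intro i j
      rw [hv]
      have e1 := hs i
      have e2 : ((j : ℕ) : ℤ) ≤ N := by
        have := j.2
        have := hH2 i
        exact_mod_cast (by omega : (j : ℕ) ≤ N)
      have e3 : |((j : ℕ) : ℤ)| ≤ N := by rw [abs_of_nonneg (Int.natCast_nonneg _)]; exact e2
      have e4 := abs_add_le (s i) ((j : ℕ) : ℤ)
      push_cast
      linarith) (by
      intro i j
      rw [hv]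
      have := j.2
      constructor
      · simp
      · simp only [add_le_add_iff_left, Nat.cast_le]
        omega) (by
      intro i
      have e1 : energy 1 (v i) = Fintype.card (Fin (H i + 1)) := by
        unfold energy
        rw [Nat.card_eq_fintype_card]
        refine Fintype.card_congr ⟨fun x => x.1.1 0, fun i => ⟨(fun _ => i, fun _ => i), rfl⟩, fun x => ?_, fun i => rfl⟩
        obtain ⟨⟨a, b⟩, h⟩ := x
        simp only [Fin.sum_univ_one] at h
        have h1 := hvinj i h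
        apply Subtype.ext
        apply Prod.ext
        · funext j
          simp [Subsingleton.elim j 0]
        · funext j
          simp only
          rw [Subsingleton.elim j 0, ← h1]
      rw [e1, Fintype.card_fin, pow_one]
      push_cast
      have e2 : (H i : ℝ) ≤ Real.log N * (H i + 1) := by nlinarith [hHpos i]
      calc ((H i : ℝ) + 1) * H i ≤ (H i + 1) * (Real.log N * (H i + 1)) := by
            apply mul_le_mul_of_nonneg_left e2
            linarith [hHpos i]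
        _ = Real.log N * (H i + 1) ^ (2 * 1) := by ring)
  have hcard : Nat.card {b : Fin k → ℤ // (∀ i, s i ≤ b i ∧ b i ≤ s i + H i) ∧
      Admissible (fun _ : Fin (k + 1) => 1) (Fin.cons 0 b) ∧ ¬ HL ε A B N (fun _ : Fin (k + 1) => 1) (Fin.cons 0 b)} ≤
      Nat.card {q : ∀ i : Fin k, Fin (H i + 1) // ¬ ∀ b : Fin k → ℤ, (∀ i, |(b i : ℝ) - v i (q i)| ≤ Real.log N ^ 0) →
        Law ε A (B + 1) 0 N b} := by
    apply Nat.card_le_card_of_injective (fun b : {b : Fin k → ℤ // (∀ i, s i ≤ b i ∧ b i ≤ s i + H i) ∧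
      Admissible (fun _ : Fin (k + 1) => 1) (Fin.cons 0 b) ∧ ¬ HL ε A B N (fun _ : Fin (k + 1) => 1) (Fin.cons 0 b)} =>
      (⟨fun i => ⟨(b.1 i - s i).toNat, by have := b.2.1 i; omega⟩, by
        intro hcon
        apply b.2.2.2
        have hb : ∀ i, v i ⟨(b.1 i - s i).toNat, by have := b.2.1 i; omega⟩ = b.1 i := by
          intro i
          rw [hv]
          simp only
          have := b.2.1 i
          omega
        have e0 : (Fin.cons 1 (fun _ => 1) : Fin (k + 1) → ℤ) = fun _ => 1 := by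
          funext i
          refine Fin.cases rfl (fun _ => rfl) i
        have e1 := hcon b.1 (fun i => by rw [hb i]; simp) (fun _ => 1) (fun _ => by simp) (by rw [e0]; exact b.2.2.1)
        rw [e0] at e1
        obtain ⟨S, hS0, hSt, hS⟩ := e1
        exact ⟨S, hS0, hSt, fun y₁ y₂ h3 h4 h5 => hS y₁ y₂ h3 (h4.trans (Nat.mul_le_mul_right _ (Nat.le_succ B))) h5⟩⟩ :
        {q : ∀ i : Fin k, Fin (H i + 1) // ¬ ∀ b : Fin k → ℤ, (∀ i, |(b i : ℝ) - v i (q i)| ≤ Real.log N ^ 0) →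
          Law ε A (B + 1) 0 N b}))
    intro b b' hbb
    simp only [Subtype.mk.injEq] at hbb
    apply Subtype.ext
    funext i
    have e1 := congrArg Fin.val (congrFun hbb i)
    simp only at e1
    have e2 := b.2.1 i
    have e3 := b'.2.1 i
    omega
  have hc : (Nat.card {b : Fin k → ℤ // (∀ i, s i ≤ b i ∧ b i ≤ s i + H i) ∧
      Admissible (fun _ : Fin (k + 1) => 1) (Fin.cons 0 b) ∧
      ¬ HL ε A B N (fun _ : Fin (k + 1) => 1) (Fin.cons 0 b)} : ℝ) ≤ (∏ i, (H i + 1 : ℝ)) / Real.log N ^ (U + k) := by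
    refine le_trans (by exact_mod_cast hcard) (key.trans (le_of_eq ?_))
    simp only [Fintype.card_fin]
    push_cast
    rfl
  refine hc.trans ?_
  rw [pow_add, div_le_div_iff₀ (by positivity) (by positivity)]
  have e1 : ∏ i, ((H i : ℝ) + 1) ≤ ∏ i, (Real.log N * (H i : ℝ)) := by
    apply Finset.prod_le_prod
    · intro i _
      linarith [hHpos i]
    · intro i _
      nlinarith [hHpos i]
  rw [prod_mul_distrib, prod_const, card_univ, Fintype.card_fin] at e1
  calc (∏ i, ((H i : ℝ) + 1)) * Real.log N ^ U ≤ (Real.log N ^ k * ∏ i, (H i : ℝ)) * Real.log N ^ U :=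
        mul_le_mul_of_nonneg_right e1 (by positivity)
    _ = _ := by ring

end Pool.Agent.Results.MP_3efbeb_nt.ShortBoxes
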